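import Mathlib
import Pool.Agent.Z894.CP.Stm2

set_option autoImplicit false

open MvPolynomial

namespace Pool.Agent.Y146.MB

open Pool.Agent.TH922.KC hiding Psi
open Pool.Agent.Z894.LX Pool.Agent.Z894.CP

/-- linear forms with coefficients the powers of `z` -/
noncomputable def lfr {R : Type} [CommRing R] (n N : ℕ) (β : Type) (z : R) (a : Fin (N + 1)) :
    MvPolynomial (Fin (n + 1) ⊕ β) R :=
  ∑ j : Fin (n + 1), C ((z ^ (a : ℕ)) ^ (j : ℕ)) * X (Sum.inl j)

lemma lfr_map {R S : Type} [CommRing R] [CommRing S] (f : R →+* S) (n N : ℕ) (β : Type) (z : R)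
    (a : Fin (N + 1)) :
    MvPolynomial.map f (lfr n N β z a) = lfr n N β (f z) a := by
  simp only [lfr, map_sum, map_mul, map_C, map_X, map_pow]

lemma lfr_LF {K : Type} [Field K] (n N : ℕ) (β : Type) (z : K) (a : Fin (N + 1)) :
    lfr n N β z a = LF (ZL z n N) a := rfl

lemma Psi_map {R S : Type} [CommRing R] [CommRing S] (f : R →+* S) {n : ℕ} (β : Type) {Φ : Type}
    (e : Φ → ℕ) (cf : (Σ φ : Φ, It (Fin (n + 1)) (e φ)) → R) (φ : Φ) :
    MvPolynomial.map f (Psi β e cf φ) = Psi β e (fun s => f (cf s)) φ := by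
  simp only [Psi, map_sum, map_mul, map_C, map_X, map_pow, map_prod]

/-- the form in the variables of the base -/
noncomputable def psiH {R : Type} [CommRing R] {n : ℕ} {Φ : Type}
    (e : Φ → ℕ) (cf : (Σ φ : Φ, It (Fin (n + 1)) (e φ)) → R) (φ : Φ) :
    MvPolynomial (Fin (n + 1)) R :=
  ∑ μ : It (Fin (n + 1)) (e φ), C (cf ⟨φ, μ⟩) * ∏ j, X j ^ (μ.1 j)

lemma psiH_hom {R : Type} [CommRing R] {n : ℕ} {Φ : Type}
    (e : Φ → ℕ) (cf : (Σ φ : Φ, It (Fin (n + 1)) (e φ)) → R) (φ : Φ) :
    (psiH e cf φ).IsHomogeneous (e φ) := by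
  refine IsHomogeneous.sum _ _ _ fun μ _ => ?_
  have h1 : (∏ j, X j ^ (μ.1 j) : MvPolynomial (Fin (n + 1)) R).IsHomogeneous
      (∑ j, μ.1 j) := by
    refine IsHomogeneous.prod _ _ _ fun j _ => ?_
    have := (isHomogeneous_X R j).pow (μ.1 j)
    rwa [one_mul] at this
  have h2 : ∑ j, μ.1 j = e φ := by
    have h3 := μ.2
    rw [Finsupp.degree_eq_sum] at h3
    exact h3
  rw [h2] at h1
  exact h1.C_mul _

lemma psiH_rename {R : Type} [CommRing R] {n : ℕ} (β : Type) {Φ : Type}
    (e : Φ → ℕ) (cf : (Σ φ : Φ, It (Fin (n + 1)) (e φ)) → R) (φ : Φ) :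
    rename Sum.inl (psiH e cf φ) = Psi β e cf φ := by
  simp only [Psi, psiH, map_sum, map_mul, rename_C, rename_X, map_pow, map_prod]

/-- the linear form in the variables of the base -/
noncomputable def lfH {R : Type} [CommRing R] (n N : ℕ) (z : R) (a : Fin (N + 1)) :
    MvPolynomial (Fin (n + 1)) R :=
  ∑ j : Fin (n + 1), C ((z ^ (a : ℕ)) ^ (j : ℕ)) * X j

lemma lfH_hom {R : Type} [CommRing R] (n N : ℕ) (z : R) (a : Fin (N + 1)) :
    (lfH n N z a).IsHomogeneous 1 := by
  refine IsHomogeneous.sum _ _ _ fun j _ => ?_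
  exact (isHomogeneous_X R j).C_mul _

lemma lfH_rename {R : Type} [CommRing R] (n N : ℕ) (β : Type) (z : R) (a : Fin (N + 1)) :
    rename Sum.inl (lfH n N z a) = lfr n N β z a := by
  simp only [lfr, lfH, map_sum, map_mul, rename_C, rename_X]

/-- roots of unity lie in a valuation ring -/
lemma root_mem {K : Type} [Field K] (V : ValuationSubring K) {M : ℕ} (hM : 0 < M) {ζ : K}
    (h : ζ ^ M = 1) : ζ ∈ V := by
  rcases V.mem_or_inv_mem ζ with h1 | h1
  · exact h1
  · have hz : ζ ≠ 0 := by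
      rintro rfl
      rw [zero_pow hM.ne'] at h
      exact zero_ne_one h
    have h2 : ζ = ζ⁻¹ ^ (M - 1) := by
      rw [inv_pow, eq_comm, inv_eq_iff_eq_inv, eq_comm]
      have : ζ ^ (M - 1) * ζ = 1 := by
        rw [← pow_succ, Nat.sub_add_cancel hM, h]
      exact (eq_inv_of_mul_eq_one_left this).symm
    rw [h2]
    exact pow_mem h1 _

/-- powers of the residue of a primitive root are distinct -/
lemma res_inj {K : Type} [Field K] (V : ValuationSubring K) {M N : ℕ} (hM : 0 < M) (hNM : N < M)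
    {ζ : K} (h : IsPrimitiveRoot ζ M) (hζ : ζ ∈ V)
    (hne : (M : IsLocalRing.ResidueField V) ≠ 0) (a b : Fin (N + 1))
    (hab : IsLocalRing.residue V ⟨ζ, hζ⟩ ^ (a : ℕ) = IsLocalRing.residue V ⟨ζ, hζ⟩ ^ (b : ℕ)) :
    a = b := by
  set zV : V := ⟨ζ, hζ⟩ with hzV
  set z2 := IsLocalRing.residue V zV with hz2
  have hpr : IsPrimitiveRoot zV M := by
    refine IsPrimitiveRoot.of_map_of_injective (f := V.subtype) ?_ V.subtype_injective
    exact h
  obtain ⟨M', rfl⟩ : ∃ M', M = M' + 1 := ⟨M - 1, (Nat.sub_add_cancel hM).symm⟩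
  have hprod := hpr.prod_one_sub_pow_eq_order
  have hprod2 : ∏ k ∈ Finset.range M', (1 - z2 ^ (k + 1)) = (M' : IsLocalRing.ResidueField V) + 1 := by
    have := congrArg (IsLocalRing.residue V) hprod
    simpa only [map_prod, map_sub, map_one, map_pow, map_add, map_natCast] using this
  have hpow : z2 ^ (M' + 1) = 1 := by
    rw [hz2, ← map_pow, hpr.pow_eq_one, map_one]
  have hz0 : z2 ≠ 0 := by
    intro h0
    rw [h0, zero_pow (Nat.succ_ne_zero _)] at hpow
    exact zero_ne_one hpow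
  have key : ∀ d : ℕ, 0 < d → d < M' + 1 → z2 ^ d ≠ 1 := by
    intro d hd hdM hd1
    apply hne
    have : ∏ k ∈ Finset.range M', (1 - z2 ^ (k + 1)) = 0 := by
      apply Finset.prod_eq_zero (i := d - 1)
      · rw [Finset.mem_range]; omega
      · rw [Nat.sub_add_cancel hd, hd1, sub_self]
    rw [hprod2] at this
    push_cast
    exact this
  have aux : ∀ x y : ℕ, x < y → y < M' + 1 → z2 ^ x ≠ z2 ^ y := by
    intro x y hxy hy hxy'
    apply key (y - x) (by omega) (by omega)
    have h1 : z2 ^ x * z2 ^ (y - x) = z2 ^ x * 1 := by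
      rw [← pow_add, Nat.add_sub_cancel' hxy.le, mul_one, hxy']
    exact mul_left_cancel₀ (pow_ne_zero _ hz0) h1
  rcases lt_trichotomy (a : ℕ) (b : ℕ) with h1 | h1 | h1
  · exact absurd hab (aux _ _ h1 (by omega))
  · exact Fin.ext h1
  · exact absurd hab.symm (aux _ _ h1 (by omega))

theorem k2_holds (h1 : MVal) (h2 : PAlg) (h3 : PKappa) : MK2 := by
  classical
  intro κ _ _ _ p _ n N B m s M hs hnN hB hn hNM hpM ζ hζ blk β Φ _ _ _ e he grp fst hfst π hπ
    hsum cf hcf P hP hgr hblk hgrp hmon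
  have hM : 0 < M := by omega
  obtain ⟨V, φ1, hinj, hφ⟩ := h1 κ p (Σ φ : Φ, It (Fin (n + 1)) (e φ)) cf hcf
  have hac : IsAlgClosed (IsLocalRing.ResidueField V) := h2 κ V
  have hchar : CharP (IsLocalRing.ResidueField V) p := charP_of_injective_ringHom hinj p
  have hcfV : ∀ x, cf x ∈ V := by
    intro x
    obtain ⟨h, -⟩ := hφ (X x)
    rwa [aeval_X] at h
  set cfV : (Σ φ : Φ, It (Fin (n + 1)) (e φ)) → V := fun x => ⟨cf x, hcfV x⟩ with hcfVdef
  set cf2 : (Σ φ : Φ, It (Fin (n + 1)) (e φ)) → IsLocalRing.ResidueField V :=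
    fun x => IsLocalRing.residue V (cfV x) with hcf2def
  have hcf2φ : ∀ x, cf2 x = φ1 (X x) := by
    intro x
    obtain ⟨h, h'⟩ := hφ (X x)
    rw [map_X] at h'
    rw [← h']
    change IsLocalRing.residue V _ = IsLocalRing.residue V _
    congr 1
    apply Subtype.ext
    simp [hcfVdef]
  let _ : Algebra (ZMod p) (IsLocalRing.ResidueField V) :=
    ZMod.algebra (IsLocalRing.ResidueField V) p
  have hind0 : AlgebraicIndependent (ZMod p) cf2 := by
    have e1 : (aeval cf2 : MvPolynomial _ (ZMod p) →ₐ[ZMod p] _).toRingHom = φ1 := by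
      apply MvPolynomial.ringHom_ext'
      · exact Subsingleton.elim _ _
      · intro x
        change aeval cf2 (X x) = φ1 (X x)
        rw [aeval_X, hcf2φ]
    change Function.Injective (aeval cf2 : MvPolynomial _ (ZMod p) →ₐ[ZMod p] _)
    intro u v huv
    apply hinj
    rw [← e1]
    exact huv
  have hind : AlgebraicIndependent
      (algebraicClosure (ZMod p) (IsLocalRing.ResidueField V)) cf2 := hind0.algebraicClosure
  have hζV : ζ ∈ V := root_mem V hM hζ.pow_eq_one
  set z2 := IsLocalRing.residue V ⟨ζ, hζV⟩ with hz2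
  have hMne : (M : IsLocalRing.ResidueField V) ≠ 0 := by
    intro h
    exact hpM ((CharP.cast_eq_zero_iff _ p M).mp h)
  have hz2M : z2 ^ M = 1 := by
    rw [hz2, ← map_pow, ← map_one (IsLocalRing.residue V)]
    congr 1
    apply Subtype.ext
    exact hζ.pow_eq_one
  have hz2alg : z2 ∈ algebraicClosure (ZMod p) (IsLocalRing.ResidueField V) := by
    rw [mem_algebraicClosure_iff]
    have : IsIntegral (ZMod p) z2 := by
      apply IsIntegral.of_pow hM
      rw [hz2M]
      exact isIntegral_one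
    exact this.isAlgebraic
  set z0 : algebraicClosure (ZMod p) (IsLocalRing.ResidueField V) := ⟨z2, hz2alg⟩ with hz0
  have hspan : ∀ S : Finset (Fin (N + 1)), n + 1 ≤ S.card →
      Submodule.span (algebraicClosure (ZMod p) (IsLocalRing.ResidueField V))
        (ZL z0 n N '' S) = ⊤ := by
    intro S hS
    refine vand_gp (fun a : Fin (N + 1) => z0 ^ (a : ℕ)) ?_ S hS
    intro a b hab
    refine res_inj V hM hNM hζ hζV hMne a b ?_
    have := congrArg (algebraMap (algebraicClosure (ZMod p) (IsLocalRing.ResidueField V))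
      (IsLocalRing.ResidueField V)) hab
    simp only [map_pow] at this
    exact this
  have hLmap : (fun (a : Fin (N + 1)) (j : Fin (n + 1)) =>
      algebraMap (algebraicClosure (ZMod p) (IsLocalRing.ResidueField V))
      (IsLocalRing.ResidueField V) (ZL z0 n N a j)) = ZL z2 n N := by
    funext a j
    simp only [ZL, map_pow]
    rfl
  -- reduction of the relations
  have hLFV : ∀ a : Fin (N + 1), (LF (ZL ζ n N) a : MvPolynomial (Fin (n + 1) ⊕ β) κ) =
      MvPolynomial.map V.subtype (lfr n N β (⟨ζ, hζV⟩ : V) a) := by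
    intro a
    rw [lfr_map]
    rfl
  have hPsiV : ∀ φ, Psi β e cf φ = MvPolynomial.map V.subtype (Psi β e cfV φ) := by
    intro φ
    rw [Psi_map]
    rfl
  have hred : ∀ u : MvPolynomial (Fin (n + 1) ⊕ β) V, MvPolynomial.map V.subtype u ∈ P →
      MvPolynomial.map (IsLocalRing.residue V) u ∈ red V P := by
    intro u hu
    rw [mem_red]
    exact ⟨u, hu, rfl⟩
  have hrel1 : ∀ (i : β) (a b : Fin (N + 1)), X (Sum.inr i) ^ (p ^ s) -
        (LF (ZL ζ n N) a) ^ (p ^ s - 1) * LF (ZL ζ n N) b ∈ P →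
      X (Sum.inr i) ^ (p ^ s) -
        (LF (ZL z2 n N) a) ^ (p ^ s - 1) * LF (ZL z2 n N) b ∈ red V P := by
    intro i a b h
    have := hred (X (Sum.inr i) ^ (p ^ s) - (lfr n N β (⟨ζ, hζV⟩ : V) a) ^ (p ^ s - 1) *
      lfr n N β (⟨ζ, hζV⟩ : V) b) (by
        simp only [map_sub, map_pow, map_X, map_mul]
        rw [← hLFV, ← hLFV]
        exact h)
    simp only [map_sub, map_pow, map_X, map_mul, lfr_map] at this
    exact this
  have hrel2 : ∀ (i : β) (c : Fin m), X (Sum.inr i) ^ (p ^ s) - Psi β e cf (fst c) *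
        ∏ φ ∈ Finset.univ.filter (fun φ => grp φ = c ∧ φ ≠ fst c), Psi β e cf φ ^ π φ ∈ P →
      X (Sum.inr i) ^ (p ^ s) - Psi β e cf2 (fst c) *
        ∏ φ ∈ Finset.univ.filter (fun φ => grp φ = c ∧ φ ≠ fst c), Psi β e cf2 φ ^ π φ
        ∈ red V P := by
    intro i c h
    have := hred (X (Sum.inr i) ^ (p ^ s) - Psi β e cfV (fst c) *
        ∏ φ ∈ Finset.univ.filter (fun φ => grp φ = c ∧ φ ≠ fst c), Psi β e cfV φ ^ π φ) (by
        simp only [map_sub, map_pow, map_X, map_mul, map_prod]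
        simp only [← hPsiV]
        exact h)
    simp only [map_sub, map_pow, map_X, map_mul, map_prod, Psi_map] at this
    exact this
  have hrel3 : ∀ (i : β) (ρ : Φ → ℕ),
      X (Sum.inr i) ^ (∑ φ, ρ φ * e φ) - ∏ φ, Psi β e cf φ ^ ρ φ ∈ P →
      X (Sum.inr i) ^ (∑ φ, ρ φ * e φ) - ∏ φ, Psi β e cf2 φ ^ ρ φ ∈ red V P := by
    intro i ρ h
    have := hred (X (Sum.inr i) ^ (∑ φ, ρ φ * e φ) - ∏ φ, Psi β e cfV φ ^ ρ φ) (by
        simp only [map_sub, map_pow, map_X, map_prod]
        simp only [← hPsiV]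
        exact h)
    simp only [map_sub, map_pow, map_X, map_prod, Psi_map] at this
    exact this
  have hrel4 : ∀ (i : β), X (Sum.inr i) ∈ P →
      (X (Sum.inr i) : MvPolynomial (Fin (n + 1) ⊕ β) (IsLocalRing.ResidueField V))
        ∈ red V P := by
    intro i h
    have := hred (X (Sum.inr i)) (by rw [map_X]; exact h)
    rwa [map_X] at this
  have hdp := div_of_prime (p ^ s) (1 : ℤ) (red V P) (κ := IsLocalRing.ResidueField V) ?_
    (red V P) (red_hom V hP) le_rfl ?_
  · obtain ⟨K, hK⟩ := hdp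
    refine ⟨K, fun t ht => ?_⟩
    have := hK t ht
    rw [red_hf V hP, red_hf V hP, one_mul] at this
    exact this
  · intro J hJ hJp hle hJgr
    obtain ⟨K, hK⟩ := h3 (algebraicClosure (ZMod p) (IsLocalRing.ResidueField V))
      (IsLocalRing.ResidueField V) p n N B m s hs hnN hB hn (ZL z0 n N) hspan blk β Φ e he
      grp fst hfst π hπ hsum cf2 hind J hJ hJp hJgr (by
        intro a b hab hblk'
        obtain ⟨i, hi⟩ := hblk a b hab hblk'
        refine ⟨i, ?_⟩
        rw [hLmap]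
        exact hle (hrel1 i a b hi)) (by
        intro c
        obtain ⟨i, hi⟩ := hgrp c
        exact ⟨i, hle (hrel2 i c hi)⟩) (by
        intro i
        rcases hmon i with hi | ⟨ρ, hρ, hi⟩ | ⟨a, b, hi⟩
        · refine ⟨1, 0, one_pos, isHomogeneous_zero _ _ _, ?_⟩
          rw [map_zero, sub_zero, pow_one]
          exact hle (hrel4 i hi)
        · refine ⟨∑ φ, ρ φ * e φ, ∏ φ, psiH e cf2 φ ^ ρ φ, hρ, ?_, ?_⟩
          · refine IsHomogeneous.prod _ _ _ fun φ _ => ?_
            have := (psiH_hom e cf2 φ).pow (ρ φ)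
            rwa [mul_comm] at this
          · rw [map_prod]
            simp only [map_pow, psiH_rename]
            exact hle (hrel3 i ρ hi)
        · refine ⟨p ^ s, lfH n N z2 a ^ (p ^ s - 1) * lfH n N z2 b, ?_, ?_, ?_⟩
          · exact pow_pos (Fact.out : p.Prime).pos s
          · have h5 := ((lfH_hom n N z2 a).pow (p ^ s - 1)).mul (lfH_hom n N z2 b)
            have h6 : 1 * (p ^ s - 1) + 1 = p ^ s := by
              have : 0 < p ^ s := pow_pos (Fact.out : p.Prime).pos s
              omega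
            rwa [h6] at h5
          · rw [map_mul, map_pow, lfH_rename, lfH_rename]
            exact hle (hrel1 i a b hi))
    exact ⟨K, fun t ht => by rw [one_mul]; exact hK t ht⟩
  · obtain ⟨C, hC⟩ := hgr
    exact ⟨C, fun t => by rw [red_hf V hP]; exact hC t⟩

end Pool.Agent.Y146.MB
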